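import Pool.Agent.UPP42.Final

set_option autoImplicit false

namespace Pool.Agent.Results.MP_bac701_al.SquareSet

open Pool.Agent.UPP42

/-- The closed unit disk in the Euclidean plane. -/
def Disk : Type := ↥(Metric.closedBall (0 : EuclideanSpace ℝ (Fin 2)) 1)

/-- The disk carries the topology induced from the plane. -/
instance : TopologicalSpace Disk :=
  inferInstanceAs (TopologicalSpace ↥(Metric.closedBall (0 : EuclideanSpace ℝ (Fin 2)) 1))

/-- The distance of a point of the disk from the origin. -/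
noncomputable def radius (x : Disk) : ℝ :=
  ‖(Subtype.val (x : ↥(Metric.closedBall (0 : EuclideanSpace ℝ (Fin 2)) 1)))‖

/-- The homeomorphism `f` of the disk fixes every point of the boundary circle. -/
def FixesBoundary (f : Disk ≃ₜ Disk) : Prop := ∀ x : Disk, radius x = 1 → f x = x

/-- The same with the closed ball written out. -/
theorem raw :
    ∃ C : Finset (↥(Metric.closedBall (0 : EuclideanSpace ℝ (Fin 2)) 1) ≃ₜ
        ↥(Metric.closedBall (0 : EuclideanSpace ℝ (Fin 2)) 1)),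
      C.Nonempty ∧
      (∀ f ∈ C, ∀ x : ↥(Metric.closedBall (0 : EuclideanSpace ℝ (Fin 2)) 1),
          ‖(x : EuclideanSpace ℝ (Fin 2))‖ = 1 → f x = x) ∧
      ∀ a ∈ C, ∀ b ∈ C, ∃ a' ∈ C, ∃ b' ∈ C, (a' ≠ a ∨ b' ≠ b) ∧ b'.trans a' = b.trans a := by
  obtain ⟨S, hfin, ⟨s, hs⟩, hS⟩ := exists_BD_set
  let f2 : BD (ℝ × ℝ) → BD (ℝ × ℝ) → (↥(Metric.closedBall (0 : EuclideanSpace ℝ (Fin 2)) 1) ≃ₜ
        ↥(Metric.closedBall (0 : EuclideanSpace ℝ (Fin 2)) 1)) := fun a b => toDisk (a⁻¹ * b)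
  have hCfin : (Set.image2 f2 S S).Finite := Set.Finite.image2 f2 hfin hfin
  refine ⟨hCfin.toFinset, ⟨f2 s s, ?_⟩, ?_, ?_⟩
  · rw [Set.Finite.mem_toFinset]
    exact ⟨s, hs, s, hs, rfl⟩
  · intro f hf x hx
    rw [Set.Finite.mem_toFinset] at hf
    obtain ⟨a, _, b, _, rfl⟩ := hf
    exact toDisk_boundary _ x hx
  · intro c hc d hd
    rw [Set.Finite.mem_toFinset] at hc hd
    obtain ⟨a₁, ha₁, b₁, hb₁, rfl⟩ := hc
    obtain ⟨a₂, ha₂, b₂, hb₂, rfl⟩ := hd
    obtain ⟨u, hu, h1, h2⟩ := hS b₁ hb₁ a₂ ha₂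
    refine ⟨f2 a₁ (b₁ * u), ?_, f2 (a₂ * u) b₂, ?_, Or.inl ?_, ?_⟩
    · rw [Set.Finite.mem_toFinset]
      exact ⟨a₁, ha₁, b₁ * u, h1, rfl⟩
    · rw [Set.Finite.mem_toFinset]
      exact ⟨a₂ * u, h2, b₂, hb₂, rfl⟩
    · intro h
      apply hu
      have h3 := toDisk_injective h
      rw [← mul_assoc] at h3
      simpa using h3
    · show toDisk (a₁⁻¹ * (b₁ * u)) * toDisk ((a₂ * u)⁻¹ * b₂)
        = toDisk (a₁⁻¹ * b₁) * toDisk (a₂⁻¹ * b₂)
      rw [← map_mul, ← map_mul]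
      congr 1
      group

/-- There is a nonempty finite set `C` of homeomorphisms of the closed unit disk fixing the boundary
circle pointwise such that every product of two elements of `C` is a product of two elements of `C`
in at least two ways. -/
theorem result :
    ∃ C : Finset (Disk ≃ₜ Disk), C.Nonempty ∧ (∀ f ∈ C, FixesBoundary f) ∧
      ∀ a ∈ C, ∀ b ∈ C, ∃ a' ∈ C, ∃ b' ∈ C, (a' ≠ a ∨ b' ≠ b) ∧ b'.trans a' = b.trans a := raw

end Pool.Agent.Results.MP_bac701_al.SquareSet
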